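import Mathlib

set_option autoImplicit false

/-!
# Project PH: the statements of the packages

A general theorem on products of families ordered by a multiplicative size: `n`-tuples ordered by the
product of the sizes, the sum of the values has the `n`-fold convolution as its limit law.
-/

namespace Pool.Agent.P8H82.PH

open Filter Topology MeasureTheory

/-- package POLYA: pointwise convergence of monotone functions to a continuous distribution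
function is uniform -/
def S_POLYA : Prop := ∀ (f : ℝ → ℝ → ℝ) (t : ℝ → ℝ) (G : ℝ → ℝ) (c : ℝ), 0 ≤ c → Continuous G →
  Monotone G → Tendsto G atBot (𝓝 0) → Tendsto G atTop (𝓝 1) →
  (∀ᶠ X in atTop, Monotone (f X) ∧ ∀ z, 0 ≤ f X z ∧ f X z ≤ t X) →
  Tendsto t atTop (𝓝 c) → (∀ z, Tendsto (fun X => f X z) atTop (𝓝 (c * G z))) →
  ∀ ε : ℝ, 0 < ε → ∀ᶠ X in atTop, ∀ z, |f X z - c * G z| ≤ ε

/-- a family of objects `i` with size `N i ≥ 1` and value `h i`: `#{N ≤ X} ~ A X ^ θ`, and ordered by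
the size the values have in the limit the continuous law `μ` -/
structure Fam (ι : Type) (N h : ι → ℝ) (θ A : ℝ) (μ : Measure ℝ) : Prop where
  one : ∀ i, 1 ≤ N i
  fin : ∀ X : ℝ, {i | N i ≤ X}.Finite
  θpos : 0 < θ
  Apos : 0 < A
  prob : IsProbabilityMeasure μ
  cts : Continuous fun x => μ.real (Set.Iic x)
  tot : Tendsto (fun X : ℝ => ({i | N i ≤ X}.ncard : ℝ) / X ^ θ) atTop (𝓝 A)
  law : ∀ x : ℝ, Tendsto (fun X : ℝ => ({i | N i ≤ X ∧ h i ≤ x}.ncard : ℝ) / X ^ θ) atTop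
    (𝓝 (A * μ.real (Set.Iic x)))

/-- package WEAK -/
def S_WEAK : Prop := ∀ (ι : Type) (N h : ι → ℝ) (θ A : ℝ) (μ : Measure ℝ)
  (hF : Fam ι N h θ A μ) (G : ℝ → ℝ), Continuous G → Monotone G → (∀ z, 0 ≤ G z ∧ G z ≤ 1) →
  ∀ x : ℝ, Tendsto (fun X : ℝ => (∑ i ∈ (hF.fin X).toFinset, G (x - h i)) / X ^ θ) atTop
    (𝓝 (A * ∫ y, G (x - y) ∂μ))

/-- package HYP -/
def S_HYP : Prop := ∀ (ι : Type) (N u : ι → ℝ) (θ a : ℝ) (hfin : ∀ X : ℝ, {i | N i ≤ X}.Finite),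
  (∀ i, 1 ≤ N i) → (∀ i, 0 ≤ u i) → 0 < θ →
  Tendsto (fun X : ℝ => (∑ i ∈ (hfin X).toFinset, u i) / X ^ θ) atTop (𝓝 a) →
  ∀ k : ℕ, Tendsto (fun X : ℝ => (∑ i ∈ (hfin X).toFinset,
      u i * ((X / N i) ^ θ * Real.log (X / N i) ^ k)) / (X ^ θ * Real.log X ^ (k + 1))) atTop
    (𝓝 (a * θ / (k + 1)))

/-- the number of `n`-tuples of size at most `X` and value at most `x` -/
noncomputable def cnt {ι : Type} (N h : ι → ℝ) (n : ℕ) (X x : ℝ) : ℕ :=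
  {v : Fin n → ι | ∏ k, N (v k) ≤ X ∧ ∑ k, h (v k) ≤ x}.ncard

/-- the number of `n`-tuples of size at most `X` -/
noncomputable def tot {ι : Type} (N : ι → ℝ) (n : ℕ) (X : ℝ) : ℕ :=
  {v : Fin n → ι | ∏ k, N (v k) ≤ X}.ncard

/-- package CNT -/
def S_CNT : Prop := ∀ (ι : Type) (N h : ι → ℝ) (hfin : ∀ X : ℝ, {i | N i ≤ X}.Finite),
  (∀ i, 1 ≤ N i) → ∀ (n : ℕ) (X : ℝ),
    {v : Fin n → ι | ∏ k, N (v k) ≤ X}.Finite ∧
    tot N (n + 1) X = ∑ i ∈ (hfin X).toFinset, tot N n (X / N i) ∧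
    ∀ x : ℝ, cnt N h (n + 1) X x = ∑ i ∈ (hfin X).toFinset, cnt N h n (X / N i) (x - h i)

/-- the `n`-fold convolution -/
noncomputable def cpow (μ : Measure ℝ) : ℕ → Measure ℝ
  | 0 => Measure.dirac 0
  | n + 1 => Measure.conv (cpow μ n) μ

/-- package CONV -/
def S_CONV : Prop := ∀ μ : Measure ℝ, IsProbabilityMeasure μ →
  (Continuous fun x => μ.real (Set.Iic x)) →
  cpow μ 1 = μ ∧ (∀ n, IsProbabilityMeasure (cpow μ n)) ∧
  (∀ (n : ℕ) (x : ℝ), (cpow μ (n + 1)).real (Set.Iic x) =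
    ∫ y, (cpow μ n).real (Set.Iic (x - y)) ∂μ) ∧
  (∀ n : ℕ, Continuous fun x => (cpow μ (n + 1)).real (Set.Iic x)) ∧
  (∀ n : ℕ, cpow μ n = (Measure.pi fun _ : Fin n => μ).map fun y => ∑ k, y k)

/-- package SUM -/
def S_SUM : Prop := ∀ (ι : Type) (N h : ι → ℝ) (θ A B c x : ℝ) (n : ℕ)
  (hfin : ∀ X : ℝ, {i | N i ≤ X}.Finite) (b : ℝ → ℝ → ℝ) (w : ℝ → ℝ),
  (∀ i, 1 ≤ N i) → 0 < θ → 0 ≤ c → (∀ z, 0 ≤ w z) →
  (∀ ε : ℝ, 0 < ε → ∃ C : ℝ, ∀ Y : ℝ, 1 ≤ Y → ∀ z,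
    |b Y z - c * w z * (Y ^ θ * Real.log Y ^ n)| ≤ ε * (Y ^ θ * Real.log Y ^ n) + C) →
  Tendsto (fun X : ℝ => ({i | N i ≤ X}.ncard : ℝ) / X ^ θ) atTop (𝓝 A) →
  Tendsto (fun X : ℝ => (∑ i ∈ (hfin X).toFinset, w (x - h i)) / X ^ θ) atTop (𝓝 B) →
  Tendsto (fun X : ℝ => (∑ i ∈ (hfin X).toFinset, b (X / N i) (x - h i)) /
      (X ^ θ * Real.log X ^ (n + 1))) atTop (𝓝 (c * B * θ / (n + 1)))

/-- the final statement: the product law -/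
def S_PH : Prop := ∀ (ι : Type) (N h : ι → ℝ) (θ A : ℝ) (μ : Measure ℝ), Fam ι N h θ A μ →
  ∀ n : ℕ,
    Tendsto (fun X : ℝ => (tot N (n + 1) X : ℝ) / (X ^ θ * Real.log X ^ n)) atTop
      (𝓝 (A ^ (n + 1) * θ ^ n / n.factorial)) ∧
    ∀ x : ℝ, Tendsto (fun X : ℝ => (cnt N h (n + 1) X x : ℝ) / (X ^ θ * Real.log X ^ n)) atTop
      (𝓝 (A ^ (n + 1) * θ ^ n / n.factorial * (cpow μ (n + 1)).real (Set.Iic x)))

end Pool.Agent.P8H82.PH
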