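import Mathlib
import Pool.Agent.P8H82.PH.Stm

set_option autoImplicit false

/-!
# Project PH: consequences of the product law
-/

namespace Pool.Agent.P8H82.PH

open Filter Topology MeasureTheory

/-- a probability measure with a given continuous distribution function -/
theorem exists_mu {F : ℝ → ℝ} (hc : Continuous F) (hm : Monotone F) (h0 : Tendsto F atBot (𝓝 0))
    (h1 : Tendsto F atTop (𝓝 1)) :
    ∃ μ : Measure ℝ, IsProbabilityMeasure μ ∧ ∀ x, μ.real (Set.Iic x) = F x := by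
  obtain ⟨f, hf⟩ : ∃ f : StieltjesFunction ℝ, f = ⟨F, hm, fun x => hc.continuousWithinAt⟩ := ⟨_, rfl⟩
  have hfF : ∀ x, f x = F x := by
    intro x
    rw [hf]
  have h0' : Tendsto f atBot (𝓝 0) := h0.congr fun x => (hfF x).symm
  have h1' : Tendsto f atTop (𝓝 1) := h1.congr fun x => (hfF x).symm
  have hp : IsProbabilityMeasure f.measure := f.isProbabilityMeasure h0' h1'
  refine ⟨f.measure, hp, fun x => ?_⟩
  rw [← ProbabilityTheory.cdf_eq_real, ProbabilityTheory.cdf_measure_stieltjesFunction f h0' h1', hfF]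

variable {ι : Type} {N h : ι → ℝ} {θ A : ℝ} {μ : Measure ℝ}

/-- the distribution function of the sum of `n` independent variables of law `μ` -/
noncomputable def Gn (μ : Measure ℝ) (n : ℕ) (x : ℝ) : ℝ :=
  (Measure.pi fun _ : Fin n => μ).real {y | ∑ k, y k ≤ x}

theorem Gn_eq (hC : S_CONV) (hF : Fam ι N h θ A μ) (n : ℕ) (x : ℝ) :
    (cpow μ n).real (Set.Iic x) = Gn μ n x := by
  have := hF.prob
  obtain ⟨-, -, -, -, h5⟩ := hC μ hF.prob hF.cts
  rw [h5 n, map_measureReal_apply (by fun_prop) measurableSet_Iic]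
  rfl

theorem Gn_pos [IsProbabilityMeasure μ] (hpos : ∀ x, 0 < μ.real (Set.Iic x)) (n : ℕ) (x : ℝ) :
    0 < Gn μ (n + 1) x := by
  have hbox : (Set.univ.pi fun _ : Fin (n + 1) => Set.Iic (x / ((n : ℝ) + 1))) ⊆
      {y | ∑ k, y k ≤ x} := by
    intro y hy
    have h1 : ∑ k, y k ≤ ∑ _k : Fin (n + 1), x / ((n : ℝ) + 1) :=
      Finset.sum_le_sum fun k _ => hy k (Set.mem_univ k)
    rw [Finset.sum_const, Finset.card_univ, Fintype.card_fin, nsmul_eq_mul] at h1
    push_cast at h1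
    rw [mul_div_cancel₀ x (by positivity : (n : ℝ) + 1 ≠ 0)] at h1
    exact h1
  have h1 : (Measure.pi fun _ : Fin (n + 1) => μ)
      (Set.univ.pi fun _ : Fin (n + 1) => Set.Iic (x / ((n : ℝ) + 1))) ≠ 0 := by
    rw [Measure.pi_pi, Finset.prod_ne_zero_iff]
    intro k _ h2
    have h3 := hpos (x / ((n : ℝ) + 1))
    rw [measureReal_def, h2] at h3
    simp at h3
  unfold Gn
  rw [measureReal_def]
  refine ENNReal.toReal_pos (fun h2 => h1 ?_) (measure_ne_top _ _)
  exact measure_mono_null hbox h2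

theorem Gn_lt [IsProbabilityMeasure μ] (hlt : ∀ x, μ.real (Set.Iic x) < 1) (n : ℕ) (x : ℝ) :
    Gn μ (n + 1) x < 1 := by
  have hm : MeasurableSet {y : Fin (n + 1) → ℝ | ∑ k, y k ≤ x} :=
    measurableSet_le (by fun_prop) measurable_const
  have hbox : (Set.univ.pi fun _ : Fin (n + 1) => Set.Ioi (x / ((n : ℝ) + 1))) ⊆
      {y | ∑ k, y k ≤ x}ᶜ := by
    intro y hy
    have h1 : ∑ _k : Fin (n + 1), x / ((n : ℝ) + 1) < ∑ k, y k :=
      Finset.sum_lt_sum_of_nonempty Finset.univ_nonempty fun k _ => hy k (Set.mem_univ k)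
    rw [Finset.sum_const, Finset.card_univ, Fintype.card_fin, nsmul_eq_mul] at h1
    push_cast at h1
    rw [mul_div_cancel₀ x (by positivity : (n : ℝ) + 1 ≠ 0)] at h1
    exact not_le.2 h1
  have h1 : (Measure.pi fun _ : Fin (n + 1) => μ)
      (Set.univ.pi fun _ : Fin (n + 1) => Set.Ioi (x / ((n : ℝ) + 1))) ≠ 0 := by
    rw [Measure.pi_pi, Finset.prod_ne_zero_iff]
    intro k _ h2
    have h3 := hlt (x / ((n : ℝ) + 1))
    have h4 : μ.real (Set.Ioi (x / ((n : ℝ) + 1))) = 1 - μ.real (Set.Iic (x / ((n : ℝ) + 1))) := by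
      rw [← Set.compl_Iic, probReal_compl_eq_one_sub measurableSet_Iic]
    rw [measureReal_def, h2] at h4
    simp at h4
    linarith
  have h2 : 0 < (Measure.pi fun _ : Fin (n + 1) => μ).real {y | ∑ k, y k ≤ x}ᶜ := by
    rw [measureReal_def]
    exact ENNReal.toReal_pos (fun h2 => h1 (measure_mono_null hbox h2)) (measure_ne_top _ _)
  rw [probReal_compl_eq_one_sub hm] at h2
  unfold Gn
  linarith

theorem G_lim (hC : S_CONV) (hF : Fam ι N h θ A μ) (n : ℕ) :
    Tendsto (fun x => (cpow μ n).real (Set.Iic x)) atTop (𝓝 1) ∧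
    Tendsto (fun x => (cpow μ n).real (Set.Iic x)) atBot (𝓝 0) := by
  obtain ⟨-, h2, -⟩ := hC μ hF.prob hF.cts
  have := h2 n
  constructor
  · exact (ProbabilityTheory.tendsto_cdf_atTop (cpow μ n)).congr fun x =>
      ProbabilityTheory.cdf_eq_real _ x
  · exact (ProbabilityTheory.tendsto_cdf_atBot (cpow μ n)).congr fun x =>
      ProbabilityTheory.cdf_eq_real _ x

theorem share_lim (hPH : S_PH) (hF : Fam ι N h θ A μ) (n : ℕ) (x : ℝ) :
    Tendsto (fun X => (cnt N h (n + 1) X x : ℝ) / (tot N (n + 1) X : ℝ)) atTop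
      (𝓝 ((cpow μ (n + 1)).real (Set.Iic x))) := by
  obtain ⟨h1, h2⟩ := hPH ι N h θ A μ hF n
  have hA := hF.Apos
  have hθ := hF.θpos
  have hc : A ^ (n + 1) * θ ^ n / (n.factorial : ℝ) ≠ 0 := by positivity
  have h3 := (h2 x).div h1 hc
  rw [mul_div_cancel_left₀ _ hc] at h3
  refine h3.congr' ?_
  filter_upwards [eventually_gt_atTop (1 : ℝ)] with X hX
  have h4 : 0 < Real.log X := Real.log_pos hX
  have h5 : X ^ θ * Real.log X ^ n ≠ 0 := by positivity
  exact div_div_div_cancel_right₀ h5 _ _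

theorem tot_top (hPH : S_PH) (hF : Fam ι N h θ A μ) (n : ℕ) :
    Tendsto (fun X => (tot N (n + 1) X : ℝ)) atTop atTop := by
  obtain ⟨h1, -⟩ := hPH ι N h θ A μ hF n
  have hA := hF.Apos
  have hθ := hF.θpos
  have hc : 0 < A ^ (n + 1) * θ ^ n / (n.factorial : ℝ) := by positivity
  have h2 : Tendsto (fun X : ℝ => X ^ θ * Real.log X ^ n) atTop atTop := by
    refine tendsto_atTop_mono' _ ?_ (tendsto_rpow_atTop hθ)
    filter_upwards [eventually_ge_atTop (Real.exp 1)] with X hX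
    have hX0 : 0 < X := (Real.exp_pos 1).trans_le hX
    have h3 : 1 ≤ Real.log X := by
      rw [Real.le_log_iff_exp_le hX0]
      exact hX
    have h4 : 1 ≤ Real.log X ^ n := one_le_pow₀ h3
    have h5 : 0 < X ^ θ := by positivity
    nlinarith
  refine (h1.pos_mul_atTop hc h2).congr' ?_
  filter_upwards [eventually_gt_atTop (1 : ℝ)] with X hX
  have h4 : 0 < Real.log X := Real.log_pos hX
  have h5 : X ^ θ * Real.log X ^ n ≠ 0 := by positivity
  exact div_mul_cancel₀ _ h5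

/-- the number of `n`-tuples of size `P ≤ X` and value at most `δ log P + c` -/
noncomputable def cntk (N h : ι → ℝ) (n : ℕ) (X δ c : ℝ) : ℕ :=
  {v : Fin n → ι | ∏ k, N (v k) ≤ X ∧ ∑ k, h (v k) ≤ δ * Real.log (∏ k, N (v k)) + c}.ncard

theorem slope_pos (hPH : S_PH) (hC : S_CONV) (hN : S_CNT) (hF : Fam ι N h θ A μ) (n : ℕ) {δ : ℝ}
    (hδ : 0 < δ) (c : ℝ) :
    Tendsto (fun X => (cntk N h (n + 1) X δ c : ℝ) / (tot N (n + 1) X : ℝ)) atTop (𝓝 1) := by
  have hfin : ∀ X : ℝ, {v : Fin (n + 1) → ι | ∏ k, N (v k) ≤ X}.Finite := fun X =>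
    (hN ι N h hF.fin hF.one (n + 1) X).1
  have hle : ∀ X, (cntk N h (n + 1) X δ c : ℝ) / (tot N (n + 1) X : ℝ) ≤ 1 := by
    intro X
    refine div_le_one_of_le₀ ?_ (Nat.cast_nonneg _)
    have h0 : cntk N h (n + 1) X δ c ≤ tot N (n + 1) X :=
      Set.ncard_le_ncard (fun v hv => hv.1) (hfin X)
    exact_mod_cast h0
  rw [tendsto_order]
  refine ⟨fun a ha => ?_, fun a ha => Eventually.of_forall fun X => (hle X).trans_lt ha⟩
  obtain ⟨x, hx⟩ := ((G_lim hC hF (n + 1)).1.eventually (lt_mem_nhds ha)).exists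
  obtain ⟨M, hM⟩ : ∃ M : ℝ, M = Real.exp ((x - c) / δ) := ⟨_, rfl⟩
  have h1 := (share_lim hPH hF n x).sub
    ((tendsto_const_nhds (x := (tot N (n + 1) M : ℝ))).div_atTop (tot_top hPH hF n))
  rw [sub_zero] at h1
  filter_upwards [h1.eventually (lt_mem_nhds hx)] with X hX
  refine hX.trans_le ?_
  rw [← sub_div]
  refine div_le_div_of_nonneg_right ?_ (Nat.cast_nonneg _)
  have h2 : cnt N h (n + 1) X x ≤ cntk N h (n + 1) X δ c + tot N (n + 1) M := by
    refine (Set.ncard_le_ncard ?_ (((hfin X).subset fun v hv => hv.1).union (hfin M))).trans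
      (Set.ncard_union_le _ _)
    rintro v ⟨hv1, hv2⟩
    rcases le_or_gt (∏ k, N (v k)) M with h3 | h3
    · exact Or.inr h3
    · refine Or.inl ⟨hv1, hv2.trans ?_⟩
      have hM0 : 0 < M := by rw [hM]; exact Real.exp_pos _
      have h4 := Real.log_lt_log hM0 h3
      rw [hM, Real.log_exp, div_lt_iff₀ hδ] at h4
      linarith
  have h3 : (cnt N h (n + 1) X x : ℝ) ≤ cntk N h (n + 1) X δ c + tot N (n + 1) M := by
    exact_mod_cast h2
  linarith

theorem slope_neg (hPH : S_PH) (hC : S_CONV) (hN : S_CNT) (hF : Fam ι N h θ A μ) (n : ℕ) {δ : ℝ}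
    (hδ : δ < 0) (c : ℝ) :
    Tendsto (fun X => (cntk N h (n + 1) X δ c : ℝ) / (tot N (n + 1) X : ℝ)) atTop (𝓝 0) := by
  have hfin : ∀ X : ℝ, {v : Fin (n + 1) → ι | ∏ k, N (v k) ≤ X}.Finite := fun X =>
    (hN ι N h hF.fin hF.one (n + 1) X).1
  rw [tendsto_order]
  refine ⟨fun a ha => Eventually.of_forall fun X => ha.trans_le (by positivity), fun a ha => ?_⟩
  obtain ⟨x, hx⟩ := ((G_lim hC hF (n + 1)).2.eventually (gt_mem_nhds ha)).exists
  obtain ⟨M, hM⟩ : ∃ M : ℝ, M = Real.exp ((x - c) / δ) := ⟨_, rfl⟩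
  have h1 := (share_lim hPH hF n x).add
    ((tendsto_const_nhds (x := (tot N (n + 1) M : ℝ))).div_atTop (tot_top hPH hF n))
  rw [add_zero] at h1
  filter_upwards [h1.eventually (gt_mem_nhds hx)] with X hX
  refine lt_of_le_of_lt ?_ hX
  rw [← add_div]
  refine div_le_div_of_nonneg_right ?_ (Nat.cast_nonneg _)
  have h2 : cntk N h (n + 1) X δ c ≤ cnt N h (n + 1) X x + tot N (n + 1) M := by
    refine (Set.ncard_le_ncard ?_ (((hfin X).subset fun v hv => hv.1).union (hfin M))).trans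
      (Set.ncard_union_le _ _)
    rintro v ⟨hv1, hv2⟩
    rcases le_or_gt (∏ k, N (v k)) M with h3 | h3
    · exact Or.inr h3
    · refine Or.inl ⟨hv1, hv2.trans ?_⟩
      have hM0 : 0 < M := by rw [hM]; exact Real.exp_pos _
      have h4 := Real.log_lt_log hM0 h3
      rw [hM, Real.log_exp] at h4
      have h5 : δ * Real.log (∏ k, N (v k)) ≤ δ * ((x - c) / δ) :=
        mul_le_mul_of_nonpos_left h4.le hδ.le
      rw [mul_div_cancel₀ _ hδ.ne] at h5
      linarith
  exact_mod_cast h2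

end Pool.Agent.P8H82.PH
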